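import Pool.Agent.helper97.KR.Spec

/-!
# Row AA: at most five vertices of degree at least 5
-/

set_option autoImplicit false

namespace Pool.Agent.helper97.KR

open Finset Classical

noncomputable section

theorem AA_ind (hTWO : TWO_stmt) (hST : ST_stmt) (hDG : DG_stmt) (hSP3 : SP3_stmt) (V E : Type) :
    ∀ (N : ℕ) (ends : E → Sym2 V) (S : Finset V) (F : Finset E), S.card ≤ N → G3 ends S F →
      (S.filter fun v => 5 ≤ dgr ends F v).card ≤ 5 → KO ends S F := by
  intro N
  induction N with
  | zero =>
    intro ends S F hN _ _ h2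
    omega
  | succ N ih =>
    intro ends S F hN hG h5
    by_cases h1 : S.card ≤ 1
    · intro h2
      omega
    by_cases h2 : S.card = 2
    · exact hTWO V E ends S F hG h2
    have h3 : 3 ≤ S.card := by omega
    by_cases h4 : ∃ v ∈ S, dgr ends F v ≤ 4
    · obtain ⟨v, hv, hle⟩ := h4
      refine hST V E ends S F v hG h3 hv hle ?_
      intro ends' F' hG' hdeg _
      refine ih ends' (S.erase v) F' ?_ hG' ?_
      · rw [Finset.card_erase_of_mem hv]
        omega
      · refine le_trans (Finset.card_le_card ?_) h5
        intro w hw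
        rw [Finset.mem_filter] at hw ⊢
        exact ⟨Finset.mem_of_mem_erase hw.1, le_trans hw.2 (hdeg w hw.1)⟩
    · exfalso
      push Not at h4
      have h6 : S ⊆ S.filter fun v => 5 ≤ dgr ends F v := by
        intro v hv
        rw [Finset.mem_filter]
        exact ⟨hv, h4 v hv⟩
      have h7 := le_trans (Finset.card_le_card h6) h5
      obtain ⟨_, h8⟩ := hDG V E ends S F hG (by omega)
      obtain ⟨h9, _⟩ := hSP3 V E ends S F hG
      have h10 : S.card * 5 ≤ ∑ v ∈ S, dgr ends F v := by
        have := Finset.card_nsmul_le_sum S (fun v => dgr ends F v) 5 (fun v hv => h4 v hv)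
        simpa using this
      omega

theorem AA (hTWO : TWO_stmt) (hST : ST_stmt) (hDG : DG_stmt) (hSP3 : SP3_stmt) : AA_stmt := by
  intro V E ends S F hG h5
  exact AA_ind hTWO hST hDG hSP3 V E S.card ends S F le_rfl hG h5

end

end Pool.Agent.helper97.KR
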